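import Pool.Agent.helper21.OE.SpecC

/-! # Row oe:CBU (MP_2e0e07_nt): complex conjugation commutes with the operator bU -/

set_option autoImplicit false

namespace Pool.Agent.OE

open MvPolynomial Matrix

theorem CBU_lin {d t : ℤ} {κ : Type} [Field κ] (π : Oz d t →+* κ) (k : ℕ) (a b : Oz d t) :
    sw (lin π k a b) = lin π k (star a) (star b) := by
  unfold lin sw
  rw [map_mul, map_pow, map_pow, map_sub, map_sub, map_mul, map_mul, map_mul, map_mul,
    MvPolynomial.algHom_C, MvPolynomial.algHom_C, MvPolynomial.algHom_C, MvPolynomial.algHom_C,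
    aeval_X, aeval_X, aeval_X, aeval_X, star_star, star_star, mul_comm]
  rfl

theorem CBU_C {κ : Type} [Field κ] (c : κ) : sw (C c : Pol κ) = C c := by
  unfold sw
  rw [MvPolynomial.algHom_C]
  rfl

/-- the unipotent matrix -/
def CBU_g {d t : ℤ} (z : Oz d t) : GO d t :=
  ⟨!![1, z; 0, 1], !![1, -z; 0, 1], by
    rw [Matrix.mul_fin_two, Matrix.one_fin_two]; simp, by
    rw [Matrix.mul_fin_two, Matrix.one_fin_two]; simp⟩

theorem CBU (hCMG : CMG_stmt) (hCEV : CEV_stmt) (hPRX : PRX_stmt) : CBU_stmt := by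
  intro d t l hl κ _ π h0 k j ψ hψ
  obtain ⟨σ, hσ⟩ := hPRX d t l hl
  obtain ⟨_, h2, _, _, h5, _, _, _, _, _⟩ := hCMG d t
  have hπ : π ((l : ℕ) : Oz d t) = 0 := by rw [map_natCast, h0]
  have hcs := hCEV.2 π j (l ^ 1) ψ hψ
  funext u v
  show sw (∑ x : Fin l × Fin l,
      C (ψ (!![1, rep d t x; 0, ((l : ℕ) : Oz d t)] *ᵥ (cv u))
        (!![1, rep d t x; 0, ((l : ℕ) : Oz d t)] *ᵥ (cv v))) * lin π k 1 (rep d t x)) =
    ∑ x : Fin l × Fin l,
      C (cs ψ (!![1, rep d t x; 0, ((l : ℕ) : Oz d t)] *ᵥ u)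
        (!![1, rep d t x; 0, ((l : ℕ) : Oz d t)] *ᵥ v)) * lin π k 1 (rep d t x)
  rw [map_sum, ← Equiv.sum_comp σ (fun x => C (cs ψ (!![1, rep d t x; 0, ((l : ℕ) : Oz d t)] *ᵥ u)
        (!![1, rep d t x; 0, ((l : ℕ) : Oz d t)] *ᵥ v)) * lin π k 1 (rep d t x))]
  refine Finset.sum_congr rfl fun x _ => ?_
  obtain ⟨z, hz⟩ := hσ x
  have hy : star (rep d t x) = rep d t (σ x) + ((l : ℕ) : Oz d t) * z := by
    rw [← hz]; ring
  have hy' : rep d t x = star (rep d t (σ x)) + ((l : ℕ) : Oz d t) * star z := by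
    rw [← star_star (rep d t x), hy, star_add, star_mul, star_natCast, mul_comm (star z)]
  have e1 : π (star (rep d t x)) = π (rep d t (σ x)) := by
    rw [hy, map_add, map_mul, hπ, zero_mul, add_zero]
  have e2 : π (rep d t x) = π (star (rep d t (σ x))) := by
    rw [hy', map_add, map_mul, hπ, zero_mul, add_zero]
  have e3 : lin π k (star 1) (star (rep d t x)) = lin π k 1 (rep d t (σ x)) := by
    unfold lin
    rw [star_star, star_star, star_one, e1, e2]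
  have hM : cm (!![1, rep d t x; 0, ((l : ℕ) : Oz d t)] : Mat d t) =
      (CBU_g z).val * !![1, rep d t (σ x); 0, ((l : ℕ) : Oz d t)] := by
    show cm (!![1, rep d t x; 0, ((l : ℕ) : Oz d t)] : Mat d t) =
      !![1, z; 0, 1] * !![1, rep d t (σ x); 0, ((l : ℕ) : Oz d t)]
    rw [Matrix.mul_fin_two]
    ext1 a b
    fin_cases a <;> fin_cases b
    · show star (1 : Oz d t) = 1 * 1 + z * 0
      rw [star_one, mul_zero, add_zero, mul_one]
    · show star (rep d t x) = 1 * rep d t (σ x) + z * ((l : ℕ) : Oz d t)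
      rw [hy, one_mul, mul_comm z]
    · show star (0 : Oz d t) = 0 * 1 + 1 * 0
      rw [star_zero, zero_mul, one_mul, add_zero]
    · show star ((l : ℕ) : Oz d t) = 0 * rep d t (σ x) + 1 * ((l : ℕ) : Oz d t)
      rw [star_natCast, zero_mul, one_mul, zero_add]
  have hcv : ∀ u : Vec d t, (!![1, rep d t x; 0, ((l : ℕ) : Oz d t)] : Mat d t) *ᵥ (cv u) =
      cv ((CBU_g z).val *ᵥ ((!![1, rep d t (σ x); 0, ((l : ℕ) : Oz d t)] : Mat d t) *ᵥ u)) := by
    intro u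
    rw [Matrix.mulVec_mulVec, ← hM, h2, h5]
  have hd : ((l ^ 1 : ℕ) : Oz d t) ∣ (CBU_g z).val 1 0 := by
    show _ ∣ (0 : Oz d t)
    exact dvd_zero _
  have he := hcs.equiv (CBU_g z) ((!![1, rep d t (σ x); 0, ((l : ℕ) : Oz d t)] : Mat d t) *ᵥ u)
    ((!![1, rep d t (σ x); 0, ((l : ℕ) : Oz d t)] : Mat d t) *ᵥ v) hd
  have h11 : (CBU_g z).val 1 1 = 1 := rfl
  rw [h11, star_one, mul_one, map_one, one_pow, one_mul] at he
  rw [map_mul, CBU_C, CBU_lin, e3, hcv u, hcv v]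
  show C (cs ψ ((CBU_g z).val *ᵥ ((!![1, rep d t (σ x); 0, ((l : ℕ) : Oz d t)] : Mat d t) *ᵥ u))
    ((CBU_g z).val *ᵥ ((!![1, rep d t (σ x); 0, ((l : ℕ) : Oz d t)] : Mat d t) *ᵥ v))) * _ = _
  rw [he]

end Pool.Agent.OE
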