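import Pool.Agent.helper21.OE.SpecC

/-! # Row oe:CEV (MP_2e0e07_nt): complex conjugation and scalar symbols -/

set_option autoImplicit false

namespace Pool.Agent.OE

open MvPolynomial Matrix

theorem CEV_smul {d t : ℤ} (c : Oz d t) (u : Vec d t) : cv (c • u) = star c • cv u := by
  funext i
  show star (c * u i) = star c * star (u i)
  rw [star_mul, mul_comm]

theorem CEV_star_ne {d t : ℤ} (c : Oz d t) (hc : c ≠ 0) : star c ≠ 0 := by
  intro h
  apply hc
  rw [← star_star c, h, star_zero]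

theorem CEV (hCMG : CMG_stmt) (hCJA : CJA_stmt) : CEV_stmt := by
  refine ⟨?_, ?_⟩
  · intro d t κ _ φ
    funext u v
    show eval ![0, 1, 0, 1] (sw (φ (cv u) (cv v))) = eval ![0, 1, 0, 1] (φ (cv u) (cv v))
    exact hCJA.2.2.2.1 _
  · intro d t κ _ π j N ψ hψ
    obtain ⟨_, h2, _, h4, _, _, h7, _, h9, _⟩ := hCMG d t
    refine ⟨⟨?_, ?_, ?_, ?_, ?_⟩, ?_⟩
    · intro v
      show ψ (cv 0) (cv v) = 0
      rw [(h7 0).2 rfl]
      exact hψ.cus.zero_left _
    · intro u
      show ψ (cv u) (cv 0) = 0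
      rw [(h7 0).2 rfl]
      exact hψ.cus.zero_right _
    · intro u v w hu hv hw
      exact hψ.cus.add _ _ _ (fun h => hu ((h7 u).1 h)) (fun h => hv ((h7 v).1 h))
        (fun h => hw ((h7 w).1 h))
    · intro c u v hc
      show ψ (cv (c • u)) (cv v) = ψ (cv u) (cv v)
      rw [CEV_smul]
      exact hψ.cus.smul_left (star c) _ _ (CEV_star_ne c hc)
    · intro c u v hc
      show ψ (cv u) (cv (c • v)) = ψ (cv u) (cv v)
      rw [CEV_smul]
      exact hψ.cus.smul_right (star c) _ _ (CEV_star_ne c hc)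
    · intro γ u v hγ
      obtain ⟨γ', hγ'⟩ := h4 γ
      have hd : ((N : ℕ) : Oz d t) ∣ γ'.val 1 0 := by
        rw [hγ']
        exact (h9 N (γ.val 1 0)).2 hγ
      have he := hψ.equiv γ' (cv u) (cv v) hd
      have h11 : γ'.val 1 1 = star (γ.val 1 1) := by rw [hγ']; rfl
      show ψ (cv (γ.val *ᵥ u)) (cv (γ.val *ᵥ v)) =
        π (γ.val 1 1 * star (γ.val 1 1)) ^ j * ψ (cv u) (cv v)
      rw [h2, h2, ← hγ', he, h11, star_star, mul_comm (star (γ.val 1 1))]

end Pool.Agent.OE
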