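import Pool.Agent.helper21.OE.SpecC

/-! # Row oe:WDA (MP_2e0e07_nt): modular symbols of level one fixed by complex conjugation -/

set_option autoImplicit false

namespace Pool.Agent.OE

open MvPolynomial Matrix

theorem WDA_cv1 {d t : ℤ} : cv (![1, 0] : Vec d t) = ![1, 0] := by
  funext i
  fin_cases i
  · exact star_one _
  · exact star_zero _

theorem WDA_cv2 {d t : ℤ} : cv (![0, 1] : Vec d t) = ![0, 1] := by
  funext i
  fin_cases i
  · exact star_zero _
  · exact star_one _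

theorem WDA (hWRQ : WRQ_stmt) (hCJS : CJS_stmt) (hCJA : CJA_stmt) : WDA_stmt := by
  intro d t hE l κ _ π h0 j hN w hw
  have h1 : IsSym π j 1 (fun _ => 1) (cj w) := hCJS π j 1 (fun _ => 1) w (fun _ => rfl) hw
  have h2 : w - cj w ∈ Sym π j 1 (fun _ => 1) :=
    Submodule.sub_mem (Sym π j 1 (fun _ => 1)) hw h1
  obtain ⟨hR, hz⟩ := hWRQ d t hE π j (w - cj w) h2
  have h3 : (w - cj w) ![1, 0] ![0, 1] = w ![1, 0] ![0, 1] - sw (w ![1, 0] ![0, 1]) := by
    show w ![1, 0] ![0, 1] - sw (w (cv ![1, 0]) (cv ![0, 1])) = _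
    rw [WDA_cv1, WDA_cv2]
  have h4 : sw ((w - cj w) ![1, 0] ![0, 1]) = -((w - cj w) ![1, 0] ![0, 1]) := by
    rw [h3, map_sub, hCJA.2.2.1, neg_sub]
  have h5 : w - cj w = 0 := hz (hN π h0 _ hR h4)
  exact (sub_eq_zero.1 h5).symm

end Pool.Agent.OE
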